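import Pool.Agent.Y239.Adm.Stab

set_option autoImplicit false

open Metric Set Filter Topology

namespace Pool.Agent.Y239.Adm.Dec

open Pool.Agent.Y318.Adm Pool.Agent.Y239.Adm.Stab

/-- the real Moebius map -/
theorem mob_lt {s : ℝ} (hs0 : 0 < s) (hs1 : s < 1) {z : ℂ} (hz : ‖z‖ < 1) :
    ‖z + s‖ < ‖1 + s * z‖ := by
  have h1 : ‖z + s‖ ^ 2 = ‖z‖ ^ 2 + s ^ 2 + 2 * s * z.re := by
    rw [Complex.sq_norm, Complex.sq_norm, Complex.normSq_apply, Complex.normSq_apply]
    simp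
    ring
  have h2 : ‖1 + s * z‖ ^ 2 = 1 + s ^ 2 * ‖z‖ ^ 2 + 2 * s * z.re := by
    rw [Complex.sq_norm, Complex.sq_norm, Complex.normSq_apply, Complex.normSq_apply]
    simp
    ring
  have h3 : 0 < (1 - s ^ 2) * (1 - ‖z‖ ^ 2) := by
    apply mul_pos
    · nlinarith
    · nlinarith [norm_nonneg z]
  have h4 : ‖z + s‖ ^ 2 < ‖1 + s * z‖ ^ 2 := by rw [h1, h2]; nlinarith
  exact lt_of_pow_lt_pow_left₀ 2 (norm_nonneg _) h4

theorem mob_ne {s : ℝ} (hs0 : 0 < s) (hs1 : s < 1) {z : ℂ} (hz : ‖z‖ < 1) :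
    1 + (s:ℂ) * z ≠ 0 := by
  have := mob_lt hs0 hs1 hz
  intro h
  rw [h, norm_zero] at this
  exact absurd this (not_lt.2 (norm_nonneg _))

theorem t (hS : S_SCH) : S_DEC := by
  intro α h0 h1 hm1 η hη
  have pm : 0 < ‖α + 1‖ := norm_pos_iff.2 (fun h => hm1 (eq_neg_of_add_eq_zero_left h))
  obtain ⟨B₀, hB₀⟩ := hS ‖α‖ (1/2) (by norm_num) (by norm_num)
  set B : ℝ := max B₀ 1 with hB
  have hB1 : 1 ≤ B := le_max_right _ _
  have hBpos : 0 < B := by linarith
  set m : ℝ := min η ‖α + 1‖ with hm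
  have hmpos : 0 < m := lt_min hη pm
  set s : ℝ := min (1/4) (m / (8 * B)) with hs
  have hs0 : 0 < s := lt_min (by norm_num) (by positivity)
  have hs4 : s ≤ 1/4 := min_le_left _ _
  have hs1 : s < 1 := by linarith
  have hsm : 4 * B * s < m := by
    have : s ≤ m / (8 * B) := min_le_right _ _
    rw [le_div_iff₀ (by positivity)] at this
    linarith
  refine ⟨s, hs0, hs1, ?_⟩
  rintro t ⟨ht0, ht1, g, hg, hg0, hgt⟩
  have b1 : ∀ z : ℂ, ‖z‖ ≤ 1/2 → ‖g z‖ ≤ B := fun z hz =>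
    (hB₀ g hg (by rw [hg0]) z hz).trans (le_max_left _ _)
  have hst : s < t := by
    by_contra hcon
    push Not at hcon
    have hn : ‖(t:ℂ)‖ = t := by rw [Complex.norm_real, Real.norm_eq_abs, abs_of_pos ht0]
    have h5 := schwarz_half hg.1 b1 (z := (t:ℂ)) (by rw [hn]; linarith)
    rw [hn, hgt, hg0] at h5
    have h6 : ‖(-1:ℂ) - α‖ = ‖α + 1‖ := by
      rw [← norm_neg]; congr 1; ring
    rw [h6] at h5
    have h7 : m ≤ ‖α + 1‖ := min_le_right _ _
    have h8 : 4 * B * t ≤ 4 * B * s := mul_le_mul_of_nonneg_left hcon (by positivity)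
    linarith
  have hts : t * s < 1 := by nlinarith
  have hts' : 0 < 1 - t * s := by linarith
  have hsn : ‖(s:ℂ)‖ = s := by rw [Complex.norm_real, Real.norm_eq_abs, abs_of_pos hs0]
  refine ⟨hst, g s, ?_, ?_, ?_, fun z => g ((z + s) / (1 + s * z)), ⟨?_, ?_⟩, ?_, ?_⟩
  · have h5 := schwarz_half hg.1 b1 (z := (s:ℂ)) (by rw [hsn]; linarith)
    rw [hsn, hg0] at h5
    exact h5.trans_lt (hsm.trans_le (min_le_left _ _))
  · exact div_pos (by linarith) hts'
  · rw [div_lt_one hts']; nlinarith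
  · refine hg.1.comp ?_ ?_
    · intro z hz
      have hz' : ‖z‖ < 1 := by simpa using hz
      have hne := mob_ne hs0 hs1 hz'
      have hda : DifferentiableAt ℂ (fun z : ℂ => (z + s) / (1 + s * z)) z :=
        DifferentiableAt.div (by fun_prop) (by fun_prop) hne
      exact hda.differentiableWithinAt
    · intro z hz
      have hz' : ‖z‖ < 1 := by simpa using hz
      rw [mem_ball_zero_iff, norm_div, div_lt_one (norm_pos_iff.2 (mob_ne hs0 hs1 hz'))]
      exact mob_lt hs0 hs1 hz'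
  · intro z hz
    have hz' : ‖z‖ < 1 := by simpa using hz
    apply hg.2
    rw [mem_ball_zero_iff, norm_div, div_lt_one (norm_pos_iff.2 (mob_ne hs0 hs1 hz'))]
    exact mob_lt hs0 hs1 hz'
  · simp
  · have hc1 : (1:ℂ) - t * s ≠ 0 := by
      have : ((1 - t * s : ℝ) : ℂ) ≠ 0 := by exact_mod_cast hts'.ne'
      simpa using this
    have hc2 : (1:ℂ) - s * s ≠ 0 := by
      have : ((1 - s * s : ℝ) : ℂ) ≠ 0 := by
        have : 1 - s * s ≠ 0 := by nlinarith
        exact_mod_cast this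
      simpa using this
    have e : ((((t - s) / (1 - t * s) : ℝ) : ℂ) + s) / (1 + s * (((t - s) / (1 - t * s) : ℝ) : ℂ))
        = t := by
      push_cast
      have n1 : ((t:ℂ) - s) / (1 - t * s) + s = t * (1 - s * s) / (1 - t * s) := by
        rw [div_add' _ _ _ hc1]; congr 1; ring
      have n2 : (1:ℂ) + s * ((t - s) / (1 - t * s)) = (1 - s * s) / (1 - t * s) := by
        rw [← mul_div_assoc, add_div' _ _ _ hc1]; congr 1; ring
      rw [n1, n2, div_div_div_cancel_right₀ hc1, mul_div_assoc, div_self hc2, mul_one]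
    simp only [e, hgt]

end Pool.Agent.Y239.Adm.Dec
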