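import Pool.Agent.Lev.J_schottky
import Pool.Agent.Y318.Adm.Stm

set_option autoImplicit false

open Metric Set Filter Topology

namespace Pool.Agent.Y239.Adm.Sch

open Pool.Agent.Y318.Adm Pool.Agent.Lev.J_schottky

theorem schottky_r {f : ℂ → ℂ} (hf : DifferentiableOn ℂ f (ball 0 1))
    (h1 : ∀ z ∈ ball (0:ℂ) 1, f z ≠ 1) (h2 : ∀ z ∈ ball (0:ℂ) 1, f z ≠ -1)
    {M r : ℝ} (hM : ‖f 0‖ ≤ M) (hr : r < 1) :
    ∀ z : ℂ, ‖z‖ ≤ r →
      ‖f z‖ ≤ Real.exp (Real.pi * Real.exp (Real.pi * (M + 2 + 192 / (1 - r)))) := by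
  obtain ⟨F, hF, hF', hF0⟩ := exists_cos_ctrl hf h1 h2
  have hFint : ∀ z ∈ ball (0:ℂ) 1, ∀ n : ℤ, F z ≠ n := by
    intro z hz n h
    have h3 := hF' z hz
    obtain ⟨ε, hε, he⟩ := cosint n
    rw [h, mul_comm, he] at h3
    rcases hε with rfl | rfl
    · exact h1 z hz (by rw [← h3]; simp)
    · exact h2 z hz (by rw [← h3]; simp)
  obtain ⟨g, hg, hg', hg0⟩ := exists_cos_ctrl hF (fun z hz => by simpa using hFint z hz 1)
    (fun z hz => by simpa using hFint z hz (-1))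
  have hom : ∀ v : ℂ, ∃ w, dist w v < 2 ∧ ∀ z ∈ ball (0:ℂ) 1, g z ≠ w := by
    intro v
    obtain ⟨w, hw, n, hn⟩ := net v
    refine ⟨w, hw, fun z hz h => ?_⟩
    apply hFint z hz n
    rw [← hg' z hz, h, hn]
  intro z hz
  have hz1 : z ∈ ball (0:ℂ) 1 := by rw [mem_ball_zero_iff]; linarith
  have hb := bloch hg two_pos hom hz1
  have hpos' : 0 < 1 - r := by linarith
  have hpos : 0 < 1 - ‖z‖ := by linarith
  have hb' : 96 * 2 / (1 - ‖z‖) ≤ 192 / (1 - r) := by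
    rw [show (96 * 2 : ℝ) = 192 by norm_num]
    exact div_le_div_of_nonneg_left (by norm_num) hpos' (by linarith)
  have hgz : ‖g z‖ ≤ M + 2 + 192 / (1 - r) := by
    have h4 : ‖g z‖ ≤ ‖g z - g 0‖ + ‖g 0‖ := by simpa using norm_add_le (g z - g 0) (g 0)
    linarith
  rw [← hF' z hz1]
  refine (norm_cos_le _).trans (Real.exp_le_exp.2 ?_)
  rw [norm_mul, Complex.norm_real, Real.norm_eq_abs, abs_of_pos Real.pi_pos]
  refine mul_le_mul_of_nonneg_left ?_ Real.pi_pos.le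
  rw [← hg' z hz1]
  refine (norm_cos_le _).trans (Real.exp_le_exp.2 ?_)
  rw [norm_mul, Complex.norm_real, Real.norm_eq_abs, abs_of_pos Real.pi_pos]
  exact mul_le_mul_of_nonneg_left hgz Real.pi_pos.le

theorem t : S_SCH := by
  intro M r _ hr
  refine ⟨Real.exp (Real.pi * Real.exp (Real.pi * ((2 * M + 1) + 2 + 192 / (1 - r)))) + 1, ?_⟩
  intro g hg hM z hz
  obtain ⟨hd, h01⟩ := hg
  have hh : DifferentiableOn ℂ (fun x => 2 * g x - 1) (ball 0 1) := (hd.const_mul 2).sub_const 1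
  have h2 := schottky_r hh (fun x hx h => (h01 _ hx).2 (by linear_combination h / 2))
    (fun x hx h => (h01 _ hx).1 (by linear_combination h / 2)) (M := 2 * M + 1) (r := r)
    (by
      have : ‖(2:ℂ) * g 0 - 1‖ ≤ ‖(2:ℂ) * g 0‖ + ‖(1:ℂ)‖ := norm_sub_le _ _
      have h3 : ‖(2:ℂ) * g 0‖ = 2 * ‖g 0‖ := by simp
      rw [h3, norm_one] at this
      show ‖(2:ℂ) * g 0 - 1‖ ≤ _
      linarith) hr z hz
  have h4 : ‖2 * g z‖ ≤ ‖2 * g z - 1‖ + ‖(1:ℂ)‖ := by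
    simpa using norm_add_le (2 * g z - 1) (1:ℂ)
  have h5 : ‖2 * g z‖ = 2 * ‖g z‖ := by simp
  rw [h5, norm_one] at h4
  have := norm_nonneg (g z)
  linarith

end Pool.Agent.Y239.Adm.Sch
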