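import Pool.Agent.Y318.Adm.Stm

set_option autoImplicit false

open Metric Set Filter Topology

namespace Pool.Agent.Y239.Adm.Stab

open Pool.Agent.Y318.Adm

theorem om_inv {g : ℂ → ℂ} (h : Om g) : Om (fun z => (g z)⁻¹) := by
  obtain ⟨hd, h01⟩ := h
  refine ⟨hd.inv fun z hz => (h01 z hz).1, fun z hz => ⟨inv_ne_zero (h01 z hz).1, fun h => ?_⟩⟩
  exact (h01 z hz).2 (inv_eq_one.1 h)

theorem om_one_sub_inv {g : ℂ → ℂ} (h : Om g) : Om (fun z => (1 - g z)⁻¹) := by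
  obtain ⟨hd, h01⟩ := h
  have hne : ∀ z ∈ ball (0:ℂ) 1, 1 - g z ≠ 0 := fun z hz h => (h01 z hz).2 (sub_eq_zero.1 h).symm
  refine ⟨((differentiableOn_const (1:ℂ)).sub hd).inv hne, fun z hz =>
    ⟨inv_ne_zero (hne z hz), fun h => ?_⟩⟩
  have h1 : 1 - g z = 1 := inv_eq_one.1 h
  exact (h01 z hz).1 (by linear_combination -h1)

/-- Schwarz lemma on the disc of radius 1/2 -/
theorem schwarz_half {g : ℂ → ℂ} (hd : DifferentiableOn ℂ g (ball 0 1)) {B : ℝ}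
    (hB : ∀ z : ℂ, ‖z‖ ≤ 1/2 → ‖g z‖ ≤ B) {z : ℂ} (hz : ‖z‖ < 1/2) :
    ‖g z - g 0‖ ≤ 4 * B * ‖z‖ := by
  have hdd : DifferentiableOn ℂ g (ball 0 (1/2)) := hd.mono (ball_subset_ball (by norm_num))
  have hmaps : MapsTo g (ball 0 (1/2)) (closedBall (g 0) (2 * B)) := by
    intro y hy
    rw [mem_ball_zero_iff] at hy
    rw [mem_closedBall, dist_eq_norm]
    calc ‖g y - g 0‖ ≤ ‖g y‖ + ‖g 0‖ := norm_sub_le _ _
      _ ≤ B + B := add_le_add (hB y hy.le) (hB 0 (by simp))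
      _ = 2 * B := by ring
  have := Complex.dist_le_div_mul_dist_of_mapsTo_ball hdd hmaps (z := z)
    (by rw [mem_ball_zero_iff]; exact hz)
  rw [dist_eq_norm, dist_eq_norm, sub_zero] at this
  calc ‖g z - g 0‖ ≤ 2 * B / (1/2) * ‖z‖ := this
    _ = 4 * B * ‖z‖ := by ring

theorem t (hS : S_SCH) : S_STAB := by
  intro α₀ h0 h1 hm1 l hl
  have p0 : 0 < ‖α₀‖ := norm_pos_iff.2 h0
  have p1 : 0 < ‖α₀ - 1‖ := norm_pos_iff.2 (sub_ne_zero.2 h1)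
  have pm : 0 < ‖α₀ + 1‖ := norm_pos_iff.2 (fun h => hm1 (eq_neg_of_add_eq_zero_left h))
  set d₀ : ℝ := min ‖α₀‖ (min ‖α₀ - 1‖ ‖α₀ + 1‖) / 2 with hd₀
  have hd₀pos : 0 < d₀ := by
    have : 0 < min ‖α₀‖ (min ‖α₀ - 1‖ ‖α₀ + 1‖) := lt_min p0 (lt_min p1 pm)
    rw [hd₀]; linarith
  have e0 : 2 * d₀ ≤ ‖α₀‖ := by rw [hd₀]; linarith [min_le_left ‖α₀‖ (min ‖α₀ - 1‖ ‖α₀ + 1‖)]
  have e1 : 2 * d₀ ≤ ‖α₀ - 1‖ := by
    rw [hd₀]
    linarith [(min_le_right ‖α₀‖ (min ‖α₀ - 1‖ ‖α₀ + 1‖)).trans (min_le_left _ _)]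
  have em : 2 * d₀ ≤ ‖α₀ + 1‖ := by
    rw [hd₀]
    linarith [(min_le_right ‖α₀‖ (min ‖α₀ - 1‖ ‖α₀ + 1‖)).trans (min_le_right _ _)]
  set M : ℝ := ‖α₀‖ + d₀ + 1 / d₀ with hM
  have hl0 : 0 < l := by linarith
  set r : ℝ := max (1 / l) (1 / 2) with hr
  have hr0 : 0 ≤ r := (by norm_num : (0:ℝ) ≤ 1/2).trans (le_max_right _ _)
  have hr1 : r < 1 := max_lt (by rw [div_lt_one hl0]; exact hl) (by norm_num)
  obtain ⟨B₀, hB₀⟩ := hS M r hr0 hr1
  set B : ℝ := max B₀ 1 with hB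
  have hB1 : 1 ≤ B := le_max_right _ _
  have hBpos : 0 < B := by linarith
  set t₀ : ℝ := min (1/4) (d₀ / (4 * B)) with ht₀
  have ht₀pos : 0 < t₀ := lt_min (by norm_num) (by positivity)
  set δ : ℝ := min d₀ (1 / (4 * B * (1 + 1 / t₀))) with hδ
  have hδpos : 0 < δ := lt_min hd₀pos (by positivity)
  refine ⟨δ, hδpos, ?_⟩
  intro α α' hα hα' t ht hlt
  obtain ⟨ht0, ht1, g, hg, hg0, hgt⟩ := ht
  have hαd : ‖α - α₀‖ < d₀ := hα.trans_le (min_le_left _ _)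
  have n1 : ‖α‖ ≤ M := by
    have : ‖α‖ ≤ ‖α - α₀‖ + ‖α₀‖ := by simpa using norm_add_le (α - α₀) α₀
    have : 0 < 1 / d₀ := by positivity
    rw [hM]; linarith
  have n2' : d₀ ≤ ‖α‖ := by
    have : ‖α₀‖ ≤ ‖α‖ + ‖α - α₀‖ := by
      have := norm_sub_le α (α - α₀)
      simpa using this
    linarith
  have n3' : d₀ ≤ ‖1 - α‖ := by
    have : ‖α₀ - 1‖ ≤ ‖1 - α‖ + ‖α - α₀‖ := by
      have := norm_add_le (1 - α) (α - α₀)
      have e : (1 - α) + (α - α₀) = -(α₀ - 1) := by ring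
      rwa [e, norm_neg] at this
    linarith
  have n4' : d₀ ≤ ‖α + 1‖ := by
    have : ‖α₀ + 1‖ ≤ ‖α + 1‖ + ‖α - α₀‖ := by
      have := norm_sub_le (α + 1) (α - α₀)
      have e : (α + 1) - (α - α₀) = α₀ + 1 := by ring
      rwa [e] at this
    linarith
  have n2 : ‖α⁻¹‖ ≤ M := by
    rw [norm_inv]
    have : ‖α‖⁻¹ ≤ d₀⁻¹ := inv_anti₀ hd₀pos n2'
    rw [hM, one_div]; linarith
  have n3 : ‖(1 - α)⁻¹‖ ≤ M := by
    rw [norm_inv]
    have : ‖1 - α‖⁻¹ ≤ d₀⁻¹ := inv_anti₀ hd₀pos n3'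
    rw [hM, one_div]; linarith
  have b1 : ∀ z : ℂ, ‖z‖ ≤ r → ‖g z‖ ≤ B := fun z hz =>
    (hB₀ g hg (by rw [hg0]; exact n1) z hz).trans (le_max_left _ _)
  have b2 : ∀ z : ℂ, ‖z‖ ≤ r → 1 / B ≤ ‖g z‖ := by
    intro z hz
    have h := (hB₀ _ (om_inv hg) (by rw [hg0]; exact n2) z hz).trans (le_max_left B₀ 1)
    rw [norm_inv] at h
    have hz1 : z ∈ ball (0:ℂ) 1 := by rw [mem_ball_zero_iff]; linarith
    have hpos : 0 < ‖g z‖ := norm_pos_iff.2 (hg.2 z hz1).1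
    rw [one_div]
    exact inv_le_of_inv_le₀ hpos h
  have b3 : ∀ z : ℂ, ‖z‖ ≤ r → 1 / B ≤ ‖1 - g z‖ := by
    intro z hz
    have h := (hB₀ _ (om_one_sub_inv hg) (by rw [hg0]; exact n3) z hz).trans (le_max_left B₀ 1)
    rw [norm_inv] at h
    have hz1 : z ∈ ball (0:ℂ) 1 := by rw [mem_ball_zero_iff]; linarith
    have hpos : 0 < ‖1 - g z‖ := norm_pos_iff.2 (sub_ne_zero.2 (hg.2 z hz1).2.symm)
    rw [one_div]
    exact inv_le_of_inv_le₀ hpos h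
  have ht₀t : t₀ ≤ t := by
    by_contra hcon
    push Not at hcon
    have h4 : t < 1/4 := hcon.trans_le (min_le_left _ _)
    have hn : ‖(t:ℂ)‖ = t := by rw [Complex.norm_real, Real.norm_eq_abs, abs_of_pos ht0]
    have h5 := schwarz_half hg.1 (B := B) (fun z hz => b1 z (hz.trans (le_max_right _ _)))
      (z := (t:ℂ)) (by rw [hn]; linarith)
    rw [hn, hgt, hg0] at h5
    have h6 : ‖(-1:ℂ) - α‖ = ‖α + 1‖ := by
      rw [← norm_neg]; congr 1; ring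
    rw [h6] at h5
    have h7 : t < d₀ / (4 * B) := hcon.trans_le (min_le_right _ _)
    rw [lt_div_iff₀ (by positivity)] at h7
    linarith
  have hlc : (l:ℂ) ≠ 0 := by exact_mod_cast hl0.ne'
  have htc : (t:ℂ) ≠ 0 := by exact_mod_cast ht0.ne'
  have hzl : ∀ z : ℂ, ‖z‖ < 1 → ‖z / l‖ ≤ 1 / l := by
    intro z hz
    rw [norm_div, Complex.norm_real, Real.norm_eq_abs, abs_of_pos hl0]
    exact div_le_div_of_nonneg_right hz.le hl0.le
  have hzl1 : ∀ z ∈ ball (0:ℂ) 1, z / l ∈ ball (0:ℂ) 1 := by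
    intro z hz
    rw [mem_ball_zero_iff] at hz ⊢
    exact (hzl z hz).trans_lt ((le_max_left _ _).trans_lt hr1)
  have hpert : ∀ z : ℂ, ‖z‖ < 1 → ‖(α' - α) * (1 - z / (l * t))‖ < 1 / B := by
    intro z hz
    rw [norm_mul]
    have q1 : ‖α' - α‖ < 2 * δ := by
      have : ‖α' - α‖ ≤ ‖α' - α₀‖ + ‖α - α₀‖ := by
        have := norm_sub_le (α' - α₀) (α - α₀)
        simpa using this
      linarith
    have q2 : ‖1 - z / (l * t)‖ ≤ 1 + 1 / t₀ := by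
      have h8 : ‖1 - z / (l * t)‖ ≤ ‖(1:ℂ)‖ + ‖z / (l * t)‖ := norm_sub_le _ _
      rw [norm_one] at h8
      have h9 : ‖z / ((l:ℂ) * t)‖ ≤ 1 / t₀ := by
        rw [norm_div, norm_mul, Complex.norm_real, Complex.norm_real, Real.norm_eq_abs,
          Real.norm_eq_abs, abs_of_pos hl0, abs_of_pos ht0]
        refine div_le_div₀ zero_le_one hz.le ht₀pos ?_
        nlinarith
      linarith
    have q3 : 2 * δ * (1 + 1 / t₀) < 1 / B := by
      have h10 : δ ≤ 1 / (4 * B * (1 + 1 / t₀)) := min_le_right _ _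
      have hp : 0 < 1 + 1 / t₀ := by positivity
      rw [le_div_iff₀ (by positivity)] at h10
      rw [lt_div_iff₀ hBpos]
      nlinarith
    have hpos : 0 < 1 + 1 / t₀ := by positivity
    calc ‖α' - α‖ * ‖1 - z / (l * t)‖ ≤ ‖α' - α‖ * (1 + 1 / t₀) :=
          mul_le_mul_of_nonneg_left q2 (norm_nonneg _)
      _ ≤ 2 * δ * (1 + 1 / t₀) := mul_le_mul_of_nonneg_right q1.le hpos.le
      _ < 1 / B := q3
  refine ⟨by positivity, hlt, fun z => g (z / l) + (α' - α) * (1 - z / (l * t)), ⟨?_, ?_⟩, ?_, ?_⟩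
  · have hcomp : DifferentiableOn ℂ (fun z : ℂ => g (z / l)) (ball 0 1) :=
      hg.1.comp (by fun_prop) hzl1
    refine hcomp.add ?_
    fun_prop
  · intro z hz
    have hz' : ‖z‖ < 1 := by simpa using hz
    have hr' : ‖z / l‖ ≤ r := (hzl z hz').trans (le_max_left _ _)
    have c1 := hpert z hz'
    have c2 := b2 _ hr'
    have c3 := b3 _ hr'
    constructor
    · intro h
      have : ‖(α' - α) * (1 - z / (l * t))‖ = ‖g (z / l)‖ := by
        rw [← norm_neg]; congr 1; linear_combination -h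
      linarith
    · intro h
      have : ‖(α' - α) * (1 - z / (l * t))‖ = ‖1 - g (z / l)‖ := by
        congr 1; linear_combination h
      linarith
  · simp [hg0]
  · have e1 : ((l * t : ℝ) : ℂ) / l = t := by push_cast; field_simp
    have e2 : ((l * t : ℝ) : ℂ) / (l * t) = 1 := by push_cast; field_simp
    simp only [e1, e2, hgt]
    ring

end Pool.Agent.Y239.Adm.Stab
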